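import Pool.Agent.TBP.StmtsA

set_option autoImplicit false

/-!
Row CHO of squad TBP (MP_ba39b0_nt): choice of the level.
-/

namespace Pool.Agent.TBP.H60

open Finset Pool.Agent.TBP

theorem cho : ChoStmt := by
  classical
  intro θ J k hθ hk
  have hk1 : (1 : ℝ) ≤ (k : ℝ) := by exact_mod_cast hk
  have hex : ∃ j : ℕ, J ≤ j ∨ k ≤ kp θ j := ⟨J, Or.inl le_rfl⟩
  obtain ⟨j, hj, hmin⟩ : ∃ j : ℕ, (J ≤ j ∨ k ≤ kp θ j) ∧ ∀ i < j, ¬ (J ≤ i ∨ k ≤ kp θ i) :=
    ⟨Nat.find hex, Nat.find_spec hex, fun i hi => Nat.find_min hex hi⟩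
  have hjJ : j ≤ J := by
    by_contra hcon
    exact hmin J (by omega) (Or.inl le_rfl)
  refine ⟨j, hjJ, fun h => ?_, ?_⟩
  · rcases hj with h1 | h1
    · omega
    · exact h1
  · rcases Nat.eq_zero_or_pos j with h0 | h0
    · subst h0
      have h1 : (1 : ℝ) ≤ (k : ℝ) ^ (1 / θ) := Real.one_le_rpow hk1 (by positivity)
      have h2 : (2 : ℝ) ^ 0 = 1 := pow_zero _
      rw [h2]
      linarith
    · obtain ⟨i, rfl⟩ : ∃ i, j = i + 1 := ⟨j - 1, by omega⟩
      have hi := hmin i (by omega)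
      push Not at hi
      have hlt : kp θ i < k := hi.2
      have hlt2 : (2 : ℝ) ^ (θ * i) < (k : ℝ) := by
        unfold kp at hlt
        exact (Nat.floor_lt (by positivity)).1 hlt
      have h3 : ((2 : ℝ) ^ (θ * i)) ^ (1 / θ) ≤ (k : ℝ) ^ (1 / θ) :=
        Real.rpow_le_rpow (by positivity) hlt2.le (by positivity)
      have h4 : ((2 : ℝ) ^ (θ * i)) ^ (1 / θ) = (2 : ℝ) ^ i := by
        rw [← Real.rpow_mul (by norm_num), ← Real.rpow_natCast]
        congr 1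
        field_simp
      rw [h4] at h3
      rw [pow_succ]
      linarith

end Pool.Agent.TBP.H60
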